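import Pool.Agent.Y900.OJ.JKa
import Pool.Agent.Y929.OM.Nl

/-!
# The formula for the mean of the logarithm, with the kernel of project OM
-/

set_option autoImplicit false

namespace Pool.Agent.Y900.OJ

open Finset Filter Topology MeasureTheory
open H370 (zset mult NN Zf zz)
open Pool.Agent.Y746.OM Pool.Agent.Y746.OJ

noncomputable section

/-- the parameters, for large `T` -/
lemma params : ∀ᶠ T : ℝ in atTop, 8 * Real.log (Real.log T) ≤ (Real.log T) ^ (1 / 3 : ℝ) ∧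
      1 ≤ Real.log (Real.log T) ∧ 10 ≤ T ∧ 128 * Real.log (Real.log T) ≤ Real.log T ∧
      8 * Real.log T ^ 9 ≤ T := by
  have h1 : ∀ᶠ x : ℝ in atTop, 8 * Real.log x ≤ x ^ (1 / 3 : ℝ) := by
    have h2 := (isLittleO_log_rpow_atTop (r := 1 / 3) (by norm_num)).bound
      (show (0 : ℝ) < 1 / 8 by norm_num)
    filter_upwards [h2, eventually_ge_atTop 1] with x hx hx1
    rw [Real.norm_of_nonneg (Real.log_nonneg hx1),
      Real.norm_of_nonneg (Real.rpow_nonneg (by linarith) _)] at hx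
    linarith
  have h3 : ∀ᶠ x : ℝ in atTop, 1 ≤ Real.log x := Real.tendsto_log_atTop.eventually_ge_atTop 1
  have h4 : ∀ᶠ x : ℝ in atTop, 128 * Real.log x ≤ x := by
    have h2 := Real.isLittleO_log_id_atTop.bound (show (0 : ℝ) < 1 / 128 by norm_num)
    filter_upwards [h2, eventually_ge_atTop 1] with x hx hx1
    rw [Real.norm_of_nonneg (Real.log_nonneg hx1), id, Real.norm_of_nonneg (by linarith)] at hx
    linarith
  have h5 : ∀ᶠ x : ℝ in atTop, 8 * x ^ 9 ≤ Real.exp x := by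
    have h2 := (Real.isLittleO_pow_exp_atTop (n := 9)).bound (show (0 : ℝ) < 1 / 8 by norm_num)
    filter_upwards [h2, eventually_ge_atTop 1] with x hx hx1
    rw [Real.norm_of_nonneg (by positivity), Real.norm_of_nonneg (Real.exp_pos _).le] at hx
    linarith
  filter_upwards [Real.tendsto_log_atTop.eventually h1, Real.tendsto_log_atTop.eventually h3,
    eventually_ge_atTop 10, Real.tendsto_log_atTop.eventually h4,
    Real.tendsto_log_atTop.eventually h5] with T e1 e2 e3 e4 e5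
  rw [Real.exp_log (by linarith)] at e5
  exact ⟨e1, e2, e3, e4, e5⟩

/-- **The formula for `J0`, with the kernel of project OM.** -/
theorem t_JK (hJF : S_JF) (hKV : S_KV) (hK : S_KER) : S_JK := by
  classical
  obtain ⟨Cj, Tj, hCj, hTj, hJ⟩ := hJF
  obtain ⟨Cp, hCp, hprime⟩ := prime_part hKV
  obtain ⟨Cv, hCv, hV⟩ := hKV
  obtain ⟨Ck, hCk, hKer⟩ := hK
  obtain ⟨Cl, hCl, hsum⟩ := Pool.Agent.Y929.OM.sum4
  obtain ⟨T1, hT1⟩ := params.exists_forall_of_atTop
  refine ⟨Cj * (8 + Cv) + Cp + 64 * Cv * Cl + 32, max (max T1 Tj) 10, by positivity,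
    le_max_right _ _, ?_⟩
  intro T hT
  have hTT1 : T1 ≤ T := (le_max_left _ _).trans ((le_max_left _ _).trans hT)
  have hTTj : Tj ≤ T := (le_max_right _ _).trans ((le_max_left _ _).trans hT)
  obtain ⟨hB3, hLL, hT10, hB16, hT9⟩ := hT1 T hTT1
  obtain ⟨U1, U2, hU1, hU1a, hU2a, hU2, hmain⟩ := hJ T hTTj
  refine ⟨U1, U2, hU1, hU1a, hU2a, hU2, fun t ht1 ht2 => ?_⟩
  obtain ⟨L, hL⟩ : ∃ L, L = Real.log T := ⟨_, rfl⟩
  obtain ⟨B, hB⟩ : ∃ B, B = 8 * Real.log L := ⟨_, rfl⟩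
  rw [← hL] at hB3 hLL hB16 hT9 ⊢
  have hL0 : 0 < L := by
    have h4 : 0 < Real.log T := Real.log_pos (by linarith)
    linarith
  have hLlog : Real.log L ≤ L := (Real.log_le_sub_one_of_pos hL0).trans (by linarith)
  have hL1 : 1 ≤ L := hLL.trans hLlog
  have hB1 : 1 ≤ B := by rw [hB]; linarith
  have hB0 : 0 ≤ B := by linarith
  have hB8 : B ≤ 8 * L := by rw [hB]; linarith
  obtain ⟨a, ha⟩ : ∃ a : ℝ, a = L ^ (-(1 / 3) : ℝ) := ⟨_, rfl⟩
  have ha0 : 0 < a := by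
    rw [ha]
    exact Real.rpow_pos_of_pos hL0 _
  have haL : a * L ^ (1 / 3 : ℝ) = 1 := by
    rw [ha, ← Real.rpow_add hL0]
    norm_num
  have haB : a * B ≤ 1 := by
    rw [← haL]
    apply mul_le_mul_of_nonneg_left _ ha0.le
    rw [hB]
    exact hB3
  have ha2 : a ^ 2 * L = L ^ (1 / 3 : ℝ) := by
    have h5 : a ^ 2 = L ^ (-(2 / 3) : ℝ) := by
      rw [ha, ← Real.rpow_natCast, ← Real.rpow_mul hL0.le]
      norm_num
    rw [h5]
    nth_rewrite 2 [← Real.rpow_one L]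
    rw [← Real.rpow_add hL0]
    norm_num
  have hexp : Real.exp (B / 2) = L ^ 4 := by
    have h5 : B / 2 = (4 : ℕ) * Real.log L := by
      rw [hB]
      push_cast
      ring
    rw [h5, Real.exp_nat_mul, Real.exp_log hL0]
  have hexpB : Real.exp B = L ^ 8 := by
    have h5 : B = (8 : ℕ) * Real.log L := by
      rw [hB]
      push_cast
      ring
    rw [h5, Real.exp_nat_mul, Real.exp_log hL0]
  have hL13 : 1 ≤ L ^ (1 / 3 : ℝ) := Real.one_le_rpow hL1 (by norm_num)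
  have hT' : 1 ≤ T := by linarith
  have hU1' : 1 ≤ U1 := by linarith
  -- the main formula
  obtain ⟨hKB, -, -, -, -, hKBw, -⟩ := hKer B hB1
  obtain ⟨hOK, -, -, hre, -⟩ := hV B hB1
  have hM0 : 0 ≤ Cv * B * Real.exp B := by positivity
  have h1 := hmain (KB B) B (Cv * B * Real.exp B) hB0 hM0 hOK t ht1 ht2
  have hint : (∫ y in U1..U2, J0 y * (KB B ((y - t : ℝ) : ℂ)).re) =
      ∫ y in U1..U2, J0 y * KR B (y - t) := by
    apply intervalIntegral.integral_congr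
    intro y _
    simp only
    rw [hKB, Complex.ofReal_re]
  rw [hint] at h1
  have hMT : B + Cv * B * Real.exp B / T ≤ (8 + Cv) * Real.log L := by
    have h2 : Cv * B * Real.exp B / T ≤ Cv := by
      rw [div_le_iff₀ (by linarith), hexpB]
      have h3 : B * L ^ 8 ≤ 8 * L * L ^ 8 := mul_le_mul_of_nonneg_right hB8 (by positivity)
      have h4 : B * L ^ 8 ≤ T := by
        have h5 : 8 * L * L ^ 8 = 8 * L ^ 9 := by ring
        linarith
      calc Cv * B * L ^ 8 = Cv * (B * L ^ 8) := by ring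
        _ ≤ Cv * T := mul_le_mul_of_nonneg_left h4 hCv.le
    have h6 : Cv * 1 ≤ Cv * Real.log L := mul_le_mul_of_nonneg_left hLL hCv.le
    have h7 : B = 8 * Real.log L := hB
    have h8 : (8 + Cv) * Real.log L = 8 * Real.log L + Cv * Real.log L := by ring
    linarith
  -- the sum over prime powers
  have hN : ∀ n : ℕ, ⌊T ^ (1 / 8 : ℝ)⌋₊ < n → 2 * B ≤ Real.log n := by
    intro n hn
    have h2 : T ^ (1 / 8 : ℝ) < n := (Nat.floor_lt (by positivity)).mp hn
    have h3 : Real.log (T ^ (1 / 8 : ℝ)) ≤ Real.log n :=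
      Real.log_le_log (Real.rpow_pos_of_pos (by linarith) _) h2.le
    rw [Real.log_rpow (by linarith), ← hL] at h3
    have h7 : B = 8 * Real.log L := hB
    linarith
  have h2 := hprime B ⌊T ^ (1 / 8 : ℝ)⌋₊ t hB1 hN
  -- the zeros
  have hZ : |2 * Real.pi * ∑ s ∈ ZR U1 U2 (1 / 2), (mult riemannZeta s : ℝ) *
          ∫ w in (0 : ℝ)..(s.re - 1 / 2), ((s.re - 1 / 2) - w) *
            (KB B (((s.im - t : ℝ) : ℂ) - (w : ℂ) * Complex.I)).re| ≤
      64 * Cv * Cl * L ^ (1 / 3 : ℝ) * Real.log L +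
      32 * L ^ 5 * ∑ s ∈ (Zf riemannZeta T (2 * T)).filter (fun s => a ≤ |s.re - 1 / 2|),
        (mult riemannZeta s : ℝ) * Real.exp (-(s.im - t) ^ 2 / 2) := by
    have hD : ∀ s ∈ ZR U1 U2 (1 / 2), |∫ w in (0 : ℝ)..(s.re - 1 / 2), ((s.re - 1 / 2) - w) *
            (KB B (((s.im - t : ℝ) : ℂ) - (w : ℂ) * Complex.I)).re| ≤
        Cv * a ^ 2 * B * Real.exp (-(s.im - t) ^ 2 / 4) +
          if a ≤ |s.re - 1 / 2| then 4 * L ^ 5 * Real.exp (-(s.im - t) ^ 2 / 2) else 0 := by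
      intro s hs
      unfold ZR at hs
      rw [Finset.mem_filter] at hs
      obtain ⟨hs1, hs2⟩ := hs
      have hs' := (H370.mem_Zf H370.good_zeta hU1').mp hs1
      have hb0 : 0 ≤ s.re - 1 / 2 := by linarith
      have hb1 : s.re - 1 / 2 ≤ 1 / 2 := by linarith [hs'.2.1]
      have hre' : ∀ w : ℝ, (((s.im - t : ℝ) : ℂ) - (w : ℂ) * Complex.I).re = s.im - t := by
        intro w; simp
      have him' : ∀ w : ℝ, (((s.im - t : ℝ) : ℂ) - (w : ℂ) * Complex.I).im = -w := by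
        intro w; simp
      by_cases hfar : a ≤ |s.re - 1 / 2|
      · rw [if_pos hfar]
        have h6 := zero_int (KB B) (s.re - 1 / 2) (s.im - t)
          (2 * B * L ^ 4 * Real.exp (-(s.im - t) ^ 2 / 2)) hb0 (by positivity) (by
            intro w hw0 hw1
            have h7 := hKBw (((s.im - t : ℝ) : ℂ) - (w : ℂ) * Complex.I) (by
              rw [him', abs_neg, abs_of_nonneg hw0]; linarith)
            rw [hre', hexp] at h7
            exact (Complex.abs_re_le_norm _).trans h7)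
        refine h6.trans ?_
        have h8 : (s.re - 1 / 2) ^ 2 ≤ (1 / 2) ^ 2 := pow_le_pow_left₀ hb0 hb1 2
        have h9 : 0 ≤ Cv * a ^ 2 * B * Real.exp (-(s.im - t) ^ 2 / 4) := by positivity
        have h10 : (s.re - 1 / 2) ^ 2 * (2 * B * L ^ 4 * Real.exp (-(s.im - t) ^ 2 / 2)) ≤
            4 * L ^ 5 * Real.exp (-(s.im - t) ^ 2 / 2) := by
          calc (s.re - 1 / 2) ^ 2 * (2 * B * L ^ 4 * Real.exp (-(s.im - t) ^ 2 / 2)) ≤
              (1 / 2) ^ 2 * (2 * (8 * L) * L ^ 4 * Real.exp (-(s.im - t) ^ 2 / 2)) := by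
                gcongr
            _ = _ := by ring
        linarith
      · rw [if_neg hfar, add_zero]
        push Not at hfar
        rw [abs_of_nonneg hb0] at hfar
        have h6 := zero_int (KB B) (s.re - 1 / 2) (s.im - t)
          (Cv * B * Real.exp (-(s.im - t) ^ 2 / 4)) hb0 (by positivity) (by
            intro w hw0 hw1
            have h7 := hre (((s.im - t : ℝ) : ℂ) - (w : ℂ) * Complex.I) (by
              rw [him', abs_neg, abs_of_nonneg hw0]
              exact (mul_le_mul_of_nonneg_right (hw1.trans hfar.le) hB0).trans haB)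
            rw [hre'] at h7
            exact h7)
        refine h6.trans ?_
        have h8 : (s.re - 1 / 2) ^ 2 ≤ a ^ 2 := pow_le_pow_left₀ hb0 hfar.le 2
        calc (s.re - 1 / 2) ^ 2 * (Cv * B * Real.exp (-(s.im - t) ^ 2 / 4)) ≤
            a ^ 2 * (Cv * B * Real.exp (-(s.im - t) ^ 2 / 4)) :=
              mul_le_mul_of_nonneg_right h8 (by positivity)
          _ = _ := by ring
    have hsub : ZR U1 U2 (1 / 2) ⊆ Zf riemannZeta U1 U2 := by
      unfold ZR
      exact Finset.filter_subset _ _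
    have hstep : |∑ s ∈ ZR U1 U2 (1 / 2), (mult riemannZeta s : ℝ) *
          ∫ w in (0 : ℝ)..(s.re - 1 / 2), ((s.re - 1 / 2) - w) *
            (KB B (((s.im - t : ℝ) : ℂ) - (w : ℂ) * Complex.I)).re| ≤
        Cv * a ^ 2 * B * (∑ s ∈ Zf riemannZeta U1 U2, (mult riemannZeta s : ℝ) *
          Real.exp (-(s.im - t) ^ 2 / 4)) +
        4 * L ^ 5 * ∑ s ∈ (Zf riemannZeta U1 U2).filter (fun s => a ≤ |s.re - 1 / 2|),
          (mult riemannZeta s : ℝ) * Real.exp (-(s.im - t) ^ 2 / 2) := by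
      rw [Finset.sum_filter, Finset.mul_sum, Finset.mul_sum, ← Finset.sum_add_distrib]
      refine (Finset.abs_sum_le_sum_abs _ _).trans ?_
      refine (Finset.sum_le_sum (g := fun s => (mult riemannZeta s : ℝ) *
        (Cv * a ^ 2 * B * Real.exp (-(s.im - t) ^ 2 / 4) +
          if a ≤ |s.re - 1 / 2| then 4 * L ^ 5 * Real.exp (-(s.im - t) ^ 2 / 2) else 0))
        fun s hs => ?_).trans ?_
      · rw [abs_mul, abs_of_nonneg (Nat.cast_nonneg _)]
        exact mul_le_mul_of_nonneg_left (hD s hs) (Nat.cast_nonneg _)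
      · refine (Finset.sum_le_sum_of_subset_of_nonneg hsub fun s _ _ => ?_).trans
          (le_of_eq (Finset.sum_congr rfl fun s _ => ?_))
        · apply mul_nonneg (Nat.cast_nonneg _)
          apply add_nonneg (by positivity)
          split_ifs
          · positivity
          · exact le_rfl
        · split_ifs
          · ring
          · ring
    have h6 := hsum T (by linarith) U1 U2 hU1 hU2 t
    rw [← hL] at h6
    have h7 : ∑ s ∈ (Zf riemannZeta U1 U2).filter (fun s => a ≤ |s.re - 1 / 2|),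
        (mult riemannZeta s : ℝ) * Real.exp (-(s.im - t) ^ 2 / 2) ≤
        ∑ s ∈ (Zf riemannZeta T (2 * T)).filter (fun s => a ≤ |s.re - 1 / 2|),
        (mult riemannZeta s : ℝ) * Real.exp (-(s.im - t) ^ 2 / 2) := by
      refine Finset.sum_le_sum_of_subset_of_nonneg ?_ fun _ _ _ => by positivity
      intro s hs
      rw [Finset.mem_filter] at hs ⊢
      refine ⟨?_, hs.2⟩
      have hs' := (H370.mem_Zf H370.good_zeta hU1').mp hs.1
      rw [H370.mem_Zf H370.good_zeta hT']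
      exact ⟨hs'.1, hs'.2.1, lt_of_le_of_lt hU1 hs'.2.2.1, hs'.2.2.2.1.trans hU2, hs'.2.2.2.2⟩
    obtain ⟨S1, hS1⟩ : ∃ x : ℝ, x = ∑ s ∈ (Zf riemannZeta T (2 * T)).filter
      (fun s => a ≤ |s.re - 1 / 2|),
        (mult riemannZeta s : ℝ) * Real.exp (-(s.im - t) ^ 2 / 2) := ⟨_, rfl⟩
    rw [← hS1] at h7 ⊢
    have hS0 : 0 ≤ S1 := by
      rw [hS1]
      exact Finset.sum_nonneg fun _ _ => by positivity
    have h8 : |∑ s ∈ ZR U1 U2 (1 / 2), (mult riemannZeta s : ℝ) *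
          ∫ w in (0 : ℝ)..(s.re - 1 / 2), ((s.re - 1 / 2) - w) *
            (KB B (((s.im - t : ℝ) : ℂ) - (w : ℂ) * Complex.I)).re| ≤
        Cv * a ^ 2 * B * (Cl * L) + 4 * L ^ 5 * S1 := by
      refine hstep.trans (add_le_add ?_ ?_)
      · exact mul_le_mul_of_nonneg_left h6 (by positivity)
      · exact mul_le_mul_of_nonneg_left h7 (by positivity)
    have h9 : Cv * a ^ 2 * B * (Cl * L) = 8 * Cv * Cl * L ^ (1 / 3 : ℝ) * Real.log L := by
      rw [← ha2, hB]; ring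
    rw [h9] at h8
    have hpi : 2 * Real.pi ≤ 8 := by linarith [Real.pi_le_four]
    have hpi0 : 0 ≤ 2 * Real.pi := by positivity
    rw [abs_mul, abs_of_nonneg hpi0]
    have h10 : 0 ≤ Real.log L := by linarith
    calc 2 * Real.pi * |∑ s ∈ ZR U1 U2 (1 / 2), (mult riemannZeta s : ℝ) *
          ∫ w in (0 : ℝ)..(s.re - 1 / 2), ((s.re - 1 / 2) - w) *
            (KB B (((s.im - t : ℝ) : ℂ) - (w : ℂ) * Complex.I)).re| ≤
        8 * (8 * Cv * Cl * L ^ (1 / 3 : ℝ) * Real.log L + 4 * L ^ 5 * S1) :=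
          mul_le_mul hpi h8 (abs_nonneg _) (by norm_num)
      _ = _ := by ring
  rw [← hB, ← ha]
  obtain ⟨S1, hS1⟩ : ∃ x : ℝ, x = ∑ s ∈ (Zf riemannZeta T (2 * T)).filter
      (fun s => a ≤ |s.re - 1 / 2|),
        (mult riemannZeta s : ℝ) * Real.exp (-(s.im - t) ^ 2 / 2) := ⟨_, rfl⟩
  rw [← hS1] at hZ ⊢
  have hS0 : 0 ≤ S1 := by
    rw [hS1]
    exact Finset.sum_nonneg fun _ _ => by positivity
  obtain ⟨X, hX⟩ : ∃ X : ℝ, X = ∫ y in U1..U2, J0 y * KR B (y - t) := ⟨_, rfl⟩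
  obtain ⟨P, hP⟩ : ∃ P : ℝ, P = ∑' n : ℕ, ArithmeticFunction.vonMangoldt n /
    (Real.sqrt n * Real.log n ^ 2) *
          ((n : ℂ) ^ (-((t : ℂ) * Complex.I)) * VH (KB B) (Real.log n)).re := ⟨_, rfl⟩
  obtain ⟨Z, hZd⟩ : ∃ Z : ℝ, Z = 2 * Real.pi * ∑ s ∈ ZR U1 U2 (1 / 2), (mult riemannZeta s : ℝ) *
          ∫ w in (0 : ℝ)..(s.re - 1 / 2), ((s.re - 1 / 2) - w) *
            (KB B (((s.im - t : ℝ) : ℂ) - (w : ℂ) * Complex.I)).re := ⟨_, rfl⟩
  obtain ⟨Y, hY⟩ : ∃ Y : ℝ, Y = Real.sqrt (2 * Real.pi) * ∑ n ∈ Icc 2 ⌊T ^ (1 / 8 : ℝ)⌋₊,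
          ArithmeticFunction.vonMangoldt n / (Real.sqrt n * Real.log n ^ 2) *
            GB B n * Real.cos (t * Real.log n) := ⟨_, rfl⟩
  rw [← hX, ← hP, ← hZd] at h1
  rw [← hP, ← hY] at h2
  rw [← hZd] at hZ
  rw [← hX, ← hY]
  have hlog0 : 0 ≤ Real.log L := by linarith
  have h3 : |X - Y| ≤ |X - P - Z| + |P - Y| + |Z| := by
    have h4 : X - Y = (X - P - Z) + (P - Y) + Z := by ring
    calc |X - Y| = |(X - P - Z) + (P - Y) + Z| := by rw [← h4]
      _ ≤ |(X - P - Z) + (P - Y)| + |Z| := abs_add_le _ _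
      _ ≤ |X - P - Z| + |P - Y| + |Z| := by
        have := abs_add_le (X - P - Z) (P - Y)
        linarith
  have h4 : Cj * (B + Cv * B * Real.exp B / T) ≤ Cj * ((8 + Cv) * Real.log L) :=
    mul_le_mul_of_nonneg_left hMT hCj.le
  obtain ⟨E, hE⟩ : ∃ E : ℝ, E = L ^ (1 / 3 : ℝ) * Real.log L ^ 3 := ⟨_, rfl⟩
  have hlog3 : Real.log L ≤ Real.log L ^ 3 := by
    have := pow_le_pow_right₀ hLL (show 1 ≤ 3 by norm_num)
    rwa [pow_one] at this
  have hE1 : Real.log L ≤ E := by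
    rw [hE]
    calc Real.log L ≤ Real.log L ^ 3 := hlog3
      _ = 1 * Real.log L ^ 3 := by ring
      _ ≤ _ := mul_le_mul_of_nonneg_right hL13 (by positivity)
  have hE2 : L ^ (1 / 3 : ℝ) * Real.log L ≤ E := by
    rw [hE]
    exact mul_le_mul_of_nonneg_left hlog3 (by linarith)
  have hE3 : 1 ≤ E := hLL.trans hE1
  have hgoal : (Cj * (8 + Cv) + Cp + 64 * Cv * Cl + 32) * L ^ (1 / 3 : ℝ) * Real.log L ^ 3 =
      (Cj * (8 + Cv) + Cp + 64 * Cv * Cl + 32) * E := by rw [hE]; ring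
  rw [hgoal]
  have h5 : Cj * ((8 + Cv) * Real.log L) ≤ Cj * (8 + Cv) * E := by
    have : Cj * ((8 + Cv) * Real.log L) = Cj * (8 + Cv) * Real.log L := by ring
    rw [this]
    exact mul_le_mul_of_nonneg_left hE1 (by positivity)
  have h6 : Cp ≤ Cp * E := le_mul_of_one_le_right hCp.le hE3
  have h7 : 64 * Cv * Cl * L ^ (1 / 3 : ℝ) * Real.log L ≤ 64 * Cv * Cl * E := by
    have : 64 * Cv * Cl * L ^ (1 / 3 : ℝ) * Real.log L =
        64 * Cv * Cl * (L ^ (1 / 3 : ℝ) * Real.log L) := by ring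
    rw [this]
    exact mul_le_mul_of_nonneg_left hE2 (by positivity)
  have h8 : 0 ≤ (Cj * (8 + Cv) + Cp + 64 * Cv * Cl) * (L ^ 5 * S1) := by positivity
  have h9 : (Cj * (8 + Cv) + Cp + 64 * Cv * Cl + 32) * E + (Cj * (8 + Cv) + Cp + 64 * Cv * Cl + 32) *
      L ^ 5 * S1 = Cj * (8 + Cv) * E + Cp * E + 64 * Cv * Cl * E + 32 * E +
      ((Cj * (8 + Cv) + Cp + 64 * Cv * Cl) * (L ^ 5 * S1) + 32 * L ^ 5 * S1) := by ring
  rw [h9]
  linarith

end

end Pool.Agent.Y900.OJ
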