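import Pool.Agent.Y746.OJ.Stm

/-!
# The formula for the mean of the logarithm, with the kernel of project OM: lemmas
-/

set_option autoImplicit false

namespace Pool.Agent.Y900.OJ

open Finset Filter Topology MeasureTheory
open H370 (zset mult NN Zf zz)
open Pool.Agent.Y746.OM Pool.Agent.Y746.OJ

noncomputable section

/-- the coefficients are nonnegative -/
lemma coef_nonneg (n : ℕ) :
    0 ≤ ArithmeticFunction.vonMangoldt n / (Real.sqrt n * Real.log n ^ 2) :=
  div_nonneg ArithmeticFunction.vonMangoldt_nonneg (by positivity)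

/-- the coefficients are bounded -/
lemma coef_le (n : ℕ) :
    ArithmeticFunction.vonMangoldt n / (Real.sqrt n * Real.log n ^ 2) ≤ 2 := by
  rcases Nat.lt_or_ge n 2 with h | h
  · interval_cases n
    · simp
    · simp
  · have hn : (2 : ℝ) ≤ n := by exact_mod_cast h
    have hl : 1 / 2 ≤ Real.log n := by
      have h1 := Real.log_two_gt_d9
      have h2 := Real.log_le_log (by norm_num) hn
      linarith
    have hs : 1 ≤ Real.sqrt n := by
      rw [Real.one_le_sqrt]; linarith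
    have hL := ArithmeticFunction.vonMangoldt_le_log (n := n)
    have hpos : 0 < Real.sqrt n * Real.log n ^ 2 := by
      apply mul_pos (by linarith)
      apply pow_pos
      linarith
    rw [div_le_iff₀ hpos]
    have h1 : Real.log n ≤ 2 * Real.log n ^ 2 := by nlinarith
    have h2 : 1 * Real.log n ^ 2 ≤ Real.sqrt n * Real.log n ^ 2 :=
      mul_le_mul_of_nonneg_right hs (by positivity)
    linarith

/-- the real part of the terms -/
lemma cpow_re (n : ℕ) (hn : 1 ≤ n) (t r : ℝ) :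
    ((n : ℂ) ^ (-((t : ℂ) * Complex.I)) * (r : ℂ)).re = Real.cos (t * Real.log n) * r := by
  have hn0 : (n : ℂ) ≠ 0 := by exact_mod_cast (by omega : n ≠ 0)
  rw [Complex.re_mul_ofReal, Complex.cpow_def_of_ne_zero hn0, ← Complex.natCast_log]
  have h : ((Real.log n : ℝ) : ℂ) * (-((t : ℂ) * Complex.I)) =
      ((-(t * Real.log n) : ℝ) : ℂ) * Complex.I := by
    push_cast; ring
  rw [h, Complex.exp_ofReal_mul_I_re, Real.cos_neg]

/-- the second part of the transform is small -/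
lemma Rb (B : ℝ) (hB : 1 ≤ B) (l : ℝ) (hl : 0 ≤ l) :
    |∫ u in (0 : ℝ)..B, (1 - u / B) * Real.exp (-(u + l) ^ 2 / 2)| ≤
      Real.sqrt (2 * Real.pi) * Real.exp (-l ^ 2 / 2) := by
  have hB0 : 0 ≤ B := by linarith
  have hint : Integrable (fun u : ℝ => Real.exp (-(1 / 2) * u ^ 2)) :=
    integrable_exp_neg_mul_sq (by norm_num)
  have h1 : |∫ u in (0 : ℝ)..B, (1 - u / B) * Real.exp (-(u + l) ^ 2 / 2)| ≤
      ∫ u in (0 : ℝ)..B, Real.exp (-l ^ 2 / 2) * Real.exp (-(1 / 2) * u ^ 2) := by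
    rw [← Real.norm_eq_abs]
    apply intervalIntegral.norm_integral_le_of_norm_le hB0
    · refine Filter.Eventually.of_forall fun u hu => ?_
      rw [norm_mul, Real.norm_eq_abs, Real.norm_eq_abs, Real.abs_exp, ← Real.exp_add]
      have hu1 : |1 - u / B| ≤ 1 := by
        have h2 : 0 ≤ u / B := div_nonneg hu.1.le hB0
        have h3 : u / B ≤ 1 := (div_le_one (by linarith)).mpr hu.2
        rw [abs_le]; constructor <;> linarith
      have h4 : Real.exp (-(u + l) ^ 2 / 2) ≤ Real.exp (-l ^ 2 / 2 + -(1 / 2) * u ^ 2) := by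
        apply Real.exp_le_exp.mpr
        nlinarith [mul_nonneg hu.1.le hl]
      calc |1 - u / B| * Real.exp (-(u + l) ^ 2 / 2) ≤ 1 * Real.exp (-(u + l) ^ 2 / 2) :=
            mul_le_mul_of_nonneg_right hu1 (Real.exp_pos _).le
        _ ≤ _ := by rw [one_mul]; exact h4
    · exact (hint.const_mul _).intervalIntegrable
  refine h1.trans ?_
  rw [intervalIntegral.integral_const_mul, mul_comm]
  apply mul_le_mul_of_nonneg_right _ (Real.exp_pos _).le
  have h5 : ∫ u : ℝ, Real.exp (-(1 / 2) * u ^ 2) = Real.sqrt (2 * Real.pi) := by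
    rw [integral_gaussian]
    congr 1
    ring
  rw [← h5, intervalIntegral.integral_of_le hB0]
  exact setIntegral_le_integral hint (Filter.Eventually.of_forall fun u => (Real.exp_pos _).le)

/-- the transform is small for large `n` -/
lemma Gb (B : ℝ) (hB : 1 ≤ B) (n : ℕ) (hn : 2 * B ≤ Real.log n) :
    |GB B n| ≤ B * Real.exp (-(Real.log n) ^ 2 / 8) := by
  have hB0 : 0 ≤ B := by linarith
  have h1 : ‖∫ u in (0 : ℝ)..B, (1 - u / B) * Real.exp (-(u - Real.log n) ^ 2 / 2)‖ ≤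
      Real.exp (-(Real.log n) ^ 2 / 8) * |B - 0| := by
    apply intervalIntegral.norm_integral_le_of_norm_le_const
    intro u hu
    rw [Set.uIoc_of_le hB0] at hu
    rw [norm_mul, Real.norm_eq_abs, Real.norm_eq_abs, Real.abs_exp]
    have hu1 : |1 - u / B| ≤ 1 := by
      have h2 : 0 ≤ u / B := div_nonneg hu.1.le hB0
      have h3 : u / B ≤ 1 := (div_le_one (by linarith)).mpr hu.2
      rw [abs_le]; constructor <;> linarith
    have h4 : Real.exp (-(u - Real.log n) ^ 2 / 2) ≤ Real.exp (-(Real.log n) ^ 2 / 8) := by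
      apply Real.exp_le_exp.mpr
      have h5 : Real.log n / 2 ≤ Real.log n - u := by linarith [hu.2]
      have h6 : (Real.log n / 2) ^ 2 ≤ (Real.log n - u) ^ 2 :=
        pow_le_pow_left₀ (by linarith) h5 2
      nlinarith
    calc |1 - u / B| * Real.exp (-(u - Real.log n) ^ 2 / 2) ≤
          1 * Real.exp (-(u - Real.log n) ^ 2 / 2) :=
          mul_le_mul_of_nonneg_right hu1 (Real.exp_pos _).le
      _ ≤ _ := by rw [one_mul]; exact h4
  rw [sub_zero, abs_of_nonneg hB0, mul_comm, Real.norm_eq_abs] at h1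
  exact h1

/-- Gaussian decay in `log n` beats any power -/
lemma gdec (n : ℕ) (hn : 1 ≤ n) (k c : ℝ) (hc : 0 < c) :
    Real.exp (-(Real.log n) ^ 2 / c) ≤ Real.exp (c * k ^ 2 / 4) * Real.exp (-(k * Real.log n)) := by
  rw [← Real.exp_add]
  apply Real.exp_le_exp.mpr
  have h : 0 ≤ (Real.log n - c * k / 2) ^ 2 / c := by positivity
  have h2 : (Real.log n - c * k / 2) ^ 2 / c =
      (Real.log n) ^ 2 / c - k * Real.log n + c * k ^ 2 / 4 := by
    field_simp
    ring
  rw [h2] at h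
  have h3 : -(Real.log n) ^ 2 / c = -((Real.log n) ^ 2 / c) := by ring
  rw [h3]
  linarith

lemma exp2log (n : ℕ) (hn : 1 ≤ n) : Real.exp (-(2 * Real.log n)) = 1 / (n : ℝ) ^ 2 := by
  have h0 : (0 : ℝ) < n := by exact_mod_cast hn
  rw [Real.exp_neg, two_mul, Real.exp_add, Real.exp_log h0, one_div, pow_two]

lemma exp3log (n : ℕ) (hn : 1 ≤ n) : Real.exp (-(3 * Real.log n)) = 1 / (n : ℝ) ^ 3 := by
  have h0 : (0 : ℝ) < n := by exact_mod_cast hn
  have h1 : 3 * Real.log n = Real.log n + Real.log n + Real.log n := by ring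
  rw [Real.exp_neg, h1, Real.exp_add, Real.exp_add, Real.exp_log h0, one_div]
  congr 1
  ring

/-- the integrals attached to the zeros -/
lemma zero_int (V : ℂ → ℂ) (b x K : ℝ) (hb : 0 ≤ b) (hK : 0 ≤ K)
    (h : ∀ w : ℝ, 0 ≤ w → w ≤ b → |(V ((x : ℂ) - (w : ℂ) * Complex.I)).re| ≤ K) :
    |∫ w in (0 : ℝ)..b, (b - w) * (V ((x : ℂ) - (w : ℂ) * Complex.I)).re| ≤ b ^ 2 * K := by
  have h1 : ‖∫ w in (0 : ℝ)..b, (b - w) * (V ((x : ℂ) - (w : ℂ) * Complex.I)).re‖ ≤
      (b * K) * |b - 0| := by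
    apply intervalIntegral.norm_integral_le_of_norm_le_const
    intro w hw
    rw [Set.uIoc_of_le hb] at hw
    rw [norm_mul, Real.norm_eq_abs, Real.norm_eq_abs]
    have h2 : |b - w| ≤ b := by
      rw [abs_le]; constructor <;> linarith [hw.1, hw.2]
    exact mul_le_mul h2 (h w hw.1.le hw.2) (abs_nonneg _) hb
  rw [sub_zero, abs_of_nonneg hb, Real.norm_eq_abs] at h1
  refine h1.trans (le_of_eq ?_)
  ring

/-- the constant of the sum over prime powers -/
def Kp : ℝ := Real.sqrt (2 * Real.pi) * 2 * (Real.exp 18 + Real.sqrt (2 * Real.pi) * Real.exp 2)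

lemma Kp_nonneg : 0 ≤ Kp := by
  unfold Kp
  positivity

/-- the sum over prime powers -/
theorem prime_part (hKV : S_KV) : ∃ C : ℝ, 0 < C ∧ ∀ (B : ℝ) (N : ℕ) (t : ℝ), 1 ≤ B →
    (∀ n : ℕ, N < n → 2 * B ≤ Real.log n) →
    |(∑' n : ℕ, ArithmeticFunction.vonMangoldt n / (Real.sqrt n * Real.log n ^ 2) *
          ((n : ℂ) ^ (-((t : ℂ) * Complex.I)) * VH (KB B) (Real.log n)).re) -
      Real.sqrt (2 * Real.pi) * ∑ n ∈ Icc 2 N,
          ArithmeticFunction.vonMangoldt n / (Real.sqrt n * Real.log n ^ 2) *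
            GB B n * Real.cos (t * Real.log n)| ≤ C := by
  classical
  obtain ⟨Cv, hCv, hV⟩ := hKV
  have hs2 : Summable (fun n : ℕ => 1 / (n : ℝ) ^ 2) :=
    Real.summable_one_div_nat_pow.mpr (by norm_num)
  refine ⟨Kp * (∑' n : ℕ, 1 / (n : ℝ) ^ 2) + 1, ?_, ?_⟩
  · have h1 := Kp_nonneg
    have h2 : 0 ≤ ∑' n : ℕ, 1 / (n : ℝ) ^ 2 := tsum_nonneg fun n => by positivity
    positivity
  intro B N t hB hN
  obtain ⟨-, hVH, -⟩ := hV B hB
  obtain ⟨F, hF⟩ : ∃ F : ℕ → ℝ, F = fun n : ℕ =>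
      ArithmeticFunction.vonMangoldt n / (Real.sqrt n * Real.log n ^ 2) *
          ((n : ℂ) ^ (-((t : ℂ) * Complex.I)) * VH (KB B) (Real.log n)).re := ⟨_, rfl⟩
  obtain ⟨G, hG⟩ : ∃ G : ℕ → ℝ, G = fun n : ℕ => if n ∈ Icc 2 N then
      Real.sqrt (2 * Real.pi) *
        (ArithmeticFunction.vonMangoldt n / (Real.sqrt n * Real.log n ^ 2) *
            GB B n * Real.cos (t * Real.log n)) else 0 := ⟨_, rfl⟩
  have hF0 : F 0 = 0 := by rw [hF]; simp
  have hF1 : F 1 = 0 := by rw [hF]; simp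
  have hF2 : ∀ n : ℕ, 1 ≤ n → F n = Real.sqrt (2 * Real.pi) *
      (ArithmeticFunction.vonMangoldt n / (Real.sqrt n * Real.log n ^ 2)) *
      Real.cos (t * Real.log n) *
      (GB B n + ∫ u in (0 : ℝ)..B, (1 - u / B) * Real.exp (-(u + Real.log n) ^ 2 / 2)) := by
    intro n hn
    rw [hF]
    simp only
    rw [hVH n hn, cpow_re n hn]
    ring
  have hG0 : G 0 = 0 := by rw [hG]; simp
  have hG1 : G 1 = 0 := by rw [hG]; simp
  have hs0 : 0 ≤ Real.sqrt (2 * Real.pi) := Real.sqrt_nonneg _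
  have hD : ∀ n : ℕ, ‖F n - G n‖ ≤ Kp * (1 / (n : ℝ) ^ 2) := by
    intro n
    rcases Nat.lt_or_ge n 2 with h | h
    · have : F n - G n = 0 := by
        interval_cases n
        · rw [hF0, hG0, sub_zero]
        · rw [hF1, hG1, sub_zero]
      rw [this, norm_zero]
      have := Kp_nonneg
      positivity
    have hn1 : 1 ≤ n := by omega
    have hnR : (1 : ℝ) ≤ n := by exact_mod_cast hn1
    have hl0 : 0 ≤ Real.log n := Real.log_nonneg hnR
    have hc0 := coef_nonneg n
    have hc2 := coef_le n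
    obtain ⟨c, hc⟩ : ∃ c : ℝ, c = ArithmeticFunction.vonMangoldt n /
      (Real.sqrt n * Real.log n ^ 2) := ⟨_, rfl⟩
    obtain ⟨R, hR⟩ : ∃ R : ℝ, R = ∫ u in (0 : ℝ)..B, (1 - u / B) *
      Real.exp (-(u + Real.log n) ^ 2 / 2) := ⟨_, rfl⟩
    have hRb := Rb B hB (Real.log n) hl0
    rw [← hR] at hRb
    have hFn := hF2 n hn1
    rw [← hc] at hc0 hc2 hFn
    rw [← hR] at hFn
    have hR2 : |R| ≤ Real.sqrt (2 * Real.pi) * Real.exp 2 * (1 / (n : ℝ) ^ 2) := by
      have h3 := gdec n hn1 2 2 (by norm_num)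
      rw [exp2log n hn1] at h3
      have h4 : (2 : ℝ) * 2 ^ 2 / 4 = 2 := by norm_num
      rw [h4] at h3
      calc |R| ≤ Real.sqrt (2 * Real.pi) * Real.exp (-Real.log n ^ 2 / 2) := hRb
        _ ≤ Real.sqrt (2 * Real.pi) * (Real.exp 2 * (1 / (n : ℝ) ^ 2)) :=
          mul_le_mul_of_nonneg_left h3 hs0
        _ = _ := by ring
    have hcos : |Real.cos (t * Real.log n)| ≤ 1 := Real.abs_cos_le_one _
    have key : ∀ X : ℝ, |X| ≤ (Real.exp 18 + Real.sqrt (2 * Real.pi) * Real.exp 2) *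
        (1 / (n : ℝ) ^ 2) → |Real.sqrt (2 * Real.pi) * c * Real.cos (t * Real.log n) * X| ≤
        Kp * (1 / (n : ℝ) ^ 2) := by
      intro X hX
      rw [abs_mul, abs_mul, abs_mul, abs_of_nonneg hs0, abs_of_nonneg hc0]
      calc Real.sqrt (2 * Real.pi) * c * |Real.cos (t * Real.log n)| * |X| ≤
          Real.sqrt (2 * Real.pi) * 2 * 1 *
            ((Real.exp 18 + Real.sqrt (2 * Real.pi) * Real.exp 2) * (1 / (n : ℝ) ^ 2)) := by
            gcongr
        _ = Kp * (1 / (n : ℝ) ^ 2) := by unfold Kp; ring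
    by_cases hnN : n ≤ N
    · have hGn : G n = Real.sqrt (2 * Real.pi) * (c * GB B n * Real.cos (t * Real.log n)) := by
        rw [hG]
        simp only
        rw [if_pos (Finset.mem_Icc.mpr ⟨h, hnN⟩), hc]
      have : F n - G n = Real.sqrt (2 * Real.pi) * c * Real.cos (t * Real.log n) * R := by
        rw [hFn, hGn]; ring
      rw [this, Real.norm_eq_abs]
      apply key
      refine hR2.trans ?_
      have h5 : 0 ≤ Real.exp 18 * (1 / (n : ℝ) ^ 2) := by positivity
      linarith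
    · have hGn : G n = 0 := by
        rw [hG]
        simp only
        rw [if_neg (fun hh => hnN (Finset.mem_Icc.mp hh).2)]
      rw [hGn, sub_zero, hFn, Real.norm_eq_abs]
      apply key
      have hbig := hN n (by omega)
      have hGb := Gb B hB n hbig
      have h3 := gdec n hn1 3 8 (by norm_num)
      rw [exp3log n hn1] at h3
      have h4 : (8 : ℝ) * 3 ^ 2 / 4 = 18 := by norm_num
      rw [h4] at h3
      have h6 : B ≤ n := by
        have h7 := Real.log_le_sub_one_of_pos (show (0 : ℝ) < n by linarith)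
        linarith
      have h8 : |GB B n| ≤ Real.exp 18 * (1 / (n : ℝ) ^ 2) := by
        calc |GB B n| ≤ B * Real.exp (-(Real.log n) ^ 2 / 8) := hGb
          _ ≤ n * (Real.exp 18 * (1 / (n : ℝ) ^ 3)) :=
            mul_le_mul h6 h3 (Real.exp_pos _).le (by linarith)
          _ = _ := by
            have : (n : ℝ) ≠ 0 := by positivity
            field_simp
      calc |GB B n + R| ≤ |GB B n| + |R| := abs_add_le _ _
        _ ≤ _ := by linarith
  have hsD : Summable (fun n => F n - G n) :=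
    Summable.of_norm_bounded (hs2.mul_left Kp) hD
  have hGsum : HasSum G (∑ n ∈ Icc 2 N, G n) := by
    apply hasSum_sum_of_ne_finset_zero
    intro n hn
    rw [hG]
    simp only
    rw [if_neg hn]
  have hGeq : ∑ n ∈ Icc 2 N, G n = Real.sqrt (2 * Real.pi) * ∑ n ∈ Icc 2 N,
          ArithmeticFunction.vonMangoldt n / (Real.sqrt n * Real.log n ^ 2) *
            GB B n * Real.cos (t * Real.log n) := by
    rw [Finset.mul_sum]
    apply Finset.sum_congr rfl
    intro n hn
    rw [hG]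
    simp only
    rw [if_pos hn]
  have hFsum : HasSum F ((∑' n, (F n - G n)) + ∑ n ∈ Icc 2 N, G n) := by
    have h9 := hsD.hasSum.add hGsum
    simpa using h9
  have h10 : (∑' n, F n) - ∑ n ∈ Icc 2 N, G n = ∑' n, (F n - G n) := by
    rw [hFsum.tsum_eq]; ring
  rw [hGeq, hF] at h10
  rw [h10]
  have h11 : ‖∑' n, (F n - G n)‖ ≤ Kp * (∑' n : ℕ, 1 / (n : ℝ) ^ 2) :=
    tsum_of_norm_bounded (hs2.hasSum.mul_left Kp) hD
  rw [hF, Real.norm_eq_abs] at h11
  linarith

end

end Pool.Agent.Y900.OJ
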